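import Pool.Agent.Helper18.LM.YD
import Pool.Agent.Helper18.LM.EX

/-!
# The bounding number of slalom capture modulo meager sets in the Laver model

The definitions are in `Pool.Agent.Helper18.LM.Defs`.
-/

set_option autoImplicit false

namespace Pool.Agent.Results.MP_2224d9_lc.LaverModel

/-- Let `J` be a nonempty well-order without largest element (for the Laver model: of order type
`ω₂`).  The countable support iteration `C` of Laver forcing along `J` exists, and it forces that every
family `(f_i)`, `i ∈ J`, of functions from Baire space to Baire space is captured modulo meager sets
by a single function from Baire space to slaloms. -/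
theorem result (J : Type) [LinearOrder J] [WellFoundedLT J] [NoMaxOrder J] [Nonempty J] :
    (∃ (C : Type) (_ : Preorder C), Nonempty (LM.LIter J C)) ∧
      ∀ (C : Type) [Preorder C], LM.LIter J C → LM.FBdd J C :=
  ⟨LM.exists_liter J, fun _ _ L => LM.bdd L⟩

end Pool.Agent.Results.MP_2224d9_lc.LaverModel
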